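import Pool.Agent.MP_18c441_lc.Defs

section

/-!
Basic facts on substitution, contexts, levels and conversion.
-/

namespace Pool.Agent.MP_18c441_lc

open Relation

universe v w w'

variable {F : Type} {ar : F → ℕ}

theorem sub_congr {W : Type v} {W' : Type w} {σ τ : W → Tm ar W'} :
    ∀ t : Tm ar W, (∀ x, t.Occ x → σ x = τ x) → t.sub σ = t.sub τ
  | .var x, h => h x rfl
  | .node f a, h => by
    simp only [Tm.sub]
    congr 1
    funext i
    exact sub_congr (a i) fun x hx => h x ⟨i, hx⟩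

theorem sub_sub {W : Type v} {W' : Type w} {W'' : Type w'} (σ : W → Tm ar W')
    (τ : W' → Tm ar W'') : ∀ t : Tm ar W, (t.sub σ).sub τ = t.sub fun x => (σ x).sub τ
  | .var _ => rfl
  | .node f a => by
    simp only [Tm.sub]
    congr 1
    funext i
    exact sub_sub σ τ (a i)

theorem sub_var {W : Type v} : ∀ t : Tm ar W, t.sub Tm.var = t
  | .var _ => rfl
  | .node f a => by
    simp only [Tm.sub]
    congr 1
    funext i
    exact sub_var (a i)

theorem occ_sub {W : Type v} {W' : Type w} (σ : W → Tm ar W') (y : W') :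
    ∀ t : Tm ar W, ∀ x, t.Occ x → (σ x).Occ y → (t.sub σ).Occ y
  | .var z, x, h, h' => by
    have : x = z := h
    subst this
    exact h'
  | .node f a, x, ⟨i, h⟩, h' => ⟨i, occ_sub σ y (a i) x h h'⟩

theorem occ_finite {W : Type v} : ∀ t : Tm ar W, {x | t.Occ x}.Finite
  | .var z => by
    have : {x | (Tm.var z : Tm ar W).Occ x} = {z} := by ext x; simp [Tm.Occ]
    rw [this]; exact Set.finite_singleton z
  | .node f a => by
    have : {x | (Tm.node f a : Tm ar W).Occ x} = ⋃ i, {x | (a i).Occ x} := by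
      ext x; simp [Tm.Occ]
    rw [this]
    exact Set.finite_iUnion fun i => occ_finite (a i)

theorem node_inj {W : Type v} {f : F} {a b : Fin (ar f) → Tm ar W}
    (h : Tm.node f a = Tm.node f b) : a = b := by
  injection h

theorem PSub.occ {p t : Tm ar ℕ} (h : PSub p t) {x : ℕ} (hx : p.Occ x) : t.Occ x := by
  induction h with
  | arg f a i => exact ⟨i, hx⟩
  | deep f a i _ ih => exact ⟨i, ih hx⟩

theorem PSub.linear {p t : Tm ar ℕ} (h : PSub p t) (ht : t.Linear) : p.Linear := by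
  induction h with
  | arg f a i => exact ht.1 i
  | deep f a i _ ih => exact ih (ht.1 i)

theorem PSub.down {f : F} {a : Fin (ar f) → Tm ar ℕ} {t : Tm ar ℕ} (h : PSub (.node f a) t)
    (i : Fin (ar f)) : PSub (a i) t := by
  generalize hp : Tm.node f a = p at h
  induction h with
  | arg g b j => exact .deep g b j (hp ▸ .arg f a i)
  | deep g b j _ ih => exact .deep g b j (ih hp)

/-- Functions given on the variables of each argument of a linear term glue. -/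
theorem merge {f : F} {a : Fin (ar f) → Tm ar ℕ} (h : (Tm.node f a).Linear) {X : Type v}
    (d : ℕ → X) (τ : Fin (ar f) → ℕ → X) :
    ∃ θ : ℕ → X, (∀ i x, (a i).Occ x → θ x = τ i x) ∧ ∀ x, ¬ (Tm.node f a).Occ x → θ x = d x := by
  classical
  refine ⟨fun x => if hx : ∃ i, (a i).Occ x then τ hx.choose x else d x, fun i x hx => ?_,
    fun x hx => dif_neg hx⟩
  have hx' : ∃ i, (a i).Occ x := ⟨i, hx⟩
  simp only [dif_pos hx']
  rw [h.2 _ _ x hx'.choose_spec hx]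

/-- A preorder compatible with changing one argument is compatible with changing all. -/
theorem node_congr {Q : Tm ar ℕ → Tm ar ℕ → Prop} (hr : ∀ s, Q s s)
    (ht : ∀ s t u, Q s t → Q t u → Q s u) (f : F)
    (ha : ∀ (a : Fin (ar f) → Tm ar ℕ) i t, Q (a i) t →
      Q (.node f a) (.node f (Function.update a i t)))
    (a b : Fin (ar f) → Tm ar ℕ) (h : ∀ i, Q (a i) (b i)) : Q (.node f a) (.node f b) := by
  classical
  have key : ∀ s : Finset (Fin (ar f)),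
      Q (.node f a) (.node f (fun i => if i ∈ s then b i else a i)) := by
    intro s
    induction s using Finset.induction_on with
    | empty => simpa using hr _
    | insert j s hj ih =>
      refine ht _ _ _ ih ?_
      have := ha (fun i => if i ∈ s then b i else a i) j (b j) (by simpa [hj] using h j)
      have e : Function.update (fun i => if i ∈ s then b i else a i) j (b j) =
          fun i => if i ∈ insert j s then b i else a i := by
        funext i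
        by_cases hi : i = j
        · subst hi; simp
        · simp [hi]
      rwa [e] at this
  simpa using key Finset.univ

theorem rtg_arg {Q : Tm ar ℕ → Tm ar ℕ → Prop} {f : F}
    (hQ : ∀ (a : Fin (ar f) → Tm ar ℕ) i t, Q (a i) t →
      Q (.node f a) (.node f (Function.update a i t)))
    (a : Fin (ar f) → Tm ar ℕ) (i : Fin (ar f)) (t : Tm ar ℕ) (h : ReflTransGen Q (a i) t) :
    ReflTransGen Q (.node f a) (.node f (Function.update a i t)) := by
  induction h with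
  | refl => simpa using ReflTransGen.refl
  | @tail b c _ h2 ih =>
    refine ih.tail ?_
    have := hQ (Function.update a i b) i c (by simpa using h2)
    simpa using this

theorem eqv_arg {Q : Tm ar ℕ → Tm ar ℕ → Prop} {f : F}
    (hQ : ∀ (a : Fin (ar f) → Tm ar ℕ) i t, Q (a i) t →
      Q (.node f a) (.node f (Function.update a i t)))
    (a : Fin (ar f) → Tm ar ℕ) (i : Fin (ar f)) (t : Tm ar ℕ) (h : EqvGen Q (a i) t) :
    EqvGen Q (.node f a) (.node f (Function.update a i t)) := by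
  have key : ∀ s t, EqvGen Q s t →
      EqvGen Q (.node f (Function.update a i s)) (.node f (Function.update a i t)) := by
    intro s t h
    induction h with
    | rel b c h2 =>
      have := hQ (Function.update a i b) i c (by simpa using h2)
      exact .rel _ _ (by simpa using this)
    | refl => exact .refl _
    | symm _ _ _ ih => exact .symm _ _ ih
    | trans _ _ _ _ _ ih1 ih2 => exact .trans _ _ _ ih1 ih2
  simpa using key _ _ h

theorem Ctx.mono {Q Q' : Tm ar ℕ → Tm ar ℕ → Prop} (h : ∀ s t, Q s t → Q' s t) {s t : Tm ar ℕ}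
    (hs : Ctx Q s t) : Ctx Q' s t := by
  induction hs with
  | root h1 => exact .root (h _ _ h1)
  | arg f a i _ ih => exact .arg f a i ih

variable {R : Set (Rule ar)}

theorem step_succ : ∀ n s t, Step R n s t → Step R (n + 1) s t
  | 0, _, _, h => h.elim
  | n + 1, _, _, h => by
    refine Ctx.mono ?_ h
    rintro s t ⟨ρ, hρ, σ, h1, h2, h3⟩
    exact ⟨ρ, hρ, σ, h1, h2, fun e he => EqvGen.mono (step_succ n) _ _ (h3 e he)⟩

theorem step_mono {n m : ℕ} (h : n ≤ m) : ∀ s t, Step R n s t → Step R m s t := by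
  induction h with
  | refl => exact fun _ _ h => h
  | step _ ih => exact fun s t h => step_succ _ _ _ (ih s t h)

theorem step_arg (n : ℕ) {f : F} (a : Fin (ar f) → Tm ar ℕ) (i : Fin (ar f)) (t : Tm ar ℕ)
    (h : Step R n (a i) t) : Step R n (.node f a) (.node f (Function.update a i t)) := by
  cases n with
  | zero => exact h.elim
  | succ n => exact Ctx.arg f a i h

theorem red_arg {f : F} (a : Fin (ar f) → Tm ar ℕ) (i : Fin (ar f)) (t : Tm ar ℕ)
    (h : Red R (a i) t) : Red R (.node f a) (.node f (Function.update a i t)) :=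
  let ⟨n, hn⟩ := h
  ⟨n, step_arg n a i t hn⟩

/-- Many-step reduction. -/
abbrev RT (R : Set (Rule ar)) := ReflTransGen (Red R)

/-- Conversion. -/
abbrev Cv (R : Set (Rule ar)) := EqvGen (Red R)

theorem rt_node {f : F} {a b : Fin (ar f) → Tm ar ℕ} (h : ∀ i, RT R (a i) (b i)) :
    RT R (.node f a) (.node f b) :=
  node_congr (fun _ => .refl) (fun _ _ _ h1 h2 => h1.trans h2) f (rtg_arg red_arg) a b h

theorem cv_node {f : F} {a b : Fin (ar f) → Tm ar ℕ} (h : ∀ i, Cv R (a i) (b i)) :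
    Cv R (.node f a) (.node f b) :=
  node_congr (fun _ => .refl _) (fun _ _ _ h1 h2 => .trans _ _ _ h1 h2) f (eqv_arg red_arg) a b h

theorem cv_of_rt {s t : Tm ar ℕ} (h : RT R s t) : Cv R s t := by
  induction h with
  | refl => exact .refl _
  | tail _ h2 ih => exact .trans _ _ _ ih (.rel _ _ h2)

theorem cv_sub {σ τ : ℕ → Tm ar ℕ} :
    ∀ t : Tm ar ℕ, (∀ x, t.Occ x → Cv R (σ x) (τ x)) → Cv R (t.sub σ) (t.sub τ)
  | .var x, h => h x rfl
  | .node _ a, h => cv_node fun i => cv_sub (a i) fun x hx => h x ⟨i, hx⟩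

theorem Holds.congr {ρ : Rule ar} (hw : ρ.WF) {σ τ : ℕ → Tm ar ℕ} (h : Holds R ρ σ)
    (hc : ∀ x, ρ.l.Occ x → Cv R (σ x) (τ x)) : Holds R ρ τ := fun e he =>
  .trans _ _ _ (.symm _ _ (cv_sub _ fun x hx => hc x (hw.2.2.2 e he x (.inl hx))))
    (.trans _ _ _ (h e he) (cv_sub _ fun x hx => hc x (hw.2.2.2 e he x (.inr hx))))

theorem cv_level {s t : Tm ar ℕ} (h : Cv R s t) : ∃ n, EqvGen (Step R n) s t := by
  induction h with
  | rel _ _ h => exact let ⟨n, hn⟩ := h; ⟨n, .rel _ _ hn⟩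
  | refl => exact ⟨0, .refl _⟩
  | symm _ _ _ ih => exact let ⟨n, hn⟩ := ih; ⟨n, .symm _ _ hn⟩
  | trans _ _ _ _ _ ih1 ih2 =>
    obtain ⟨n, hn⟩ := ih1
    obtain ⟨m, hm⟩ := ih2
    exact ⟨max n m, .trans _ _ _ (EqvGen.mono (step_mono (le_max_left _ _)) _ _ hn)
      (EqvGen.mono (step_mono (le_max_right _ _)) _ _ hm)⟩

theorem red_root {ρ : Rule ar} (hρ : ρ ∈ R) {σ : ℕ → Tm ar ℕ} (h : Holds R ρ σ) :
    Red R (ρ.l.sub σ) (ρ.r.sub σ) := by
  have : ∀ L : List (Tm ar ℕ × Tm ar ℕ), (∀ e ∈ L, Cv R (e.1.sub σ) (e.2.sub σ)) →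
      ∃ n, ∀ e ∈ L, EqvGen (Step R n) (e.1.sub σ) (e.2.sub σ) := by
    intro L
    induction L with
    | nil => exact fun _ => ⟨0, by simp⟩
    | cons e L ih =>
      intro hL
      obtain ⟨n, hn⟩ := ih fun e' he' => hL e' (List.mem_cons_of_mem _ he')
      obtain ⟨m, hm⟩ := cv_level (hL e List.mem_cons_self)
      refine ⟨max n m, fun e' he' => ?_⟩
      rcases List.mem_cons.1 he' with rfl | he'
      · exact EqvGen.mono (step_mono (le_max_right _ _)) _ _ hm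
      · exact EqvGen.mono (step_mono (le_max_left _ _)) _ _ (hn e' he')
  obtain ⟨n, hn⟩ := this ρ.conds h
  exact ⟨n + 1, Ctx.root ⟨ρ, hρ, σ, rfl, rfl, hn⟩⟩

theorem holds_of_level {ρ : Rule ar} {σ : ℕ → Tm ar ℕ} {n : ℕ}
    (h : ∀ e ∈ ρ.conds, EqvGen (Step R n) (e.1.sub σ) (e.2.sub σ)) : Holds R ρ σ :=
  fun e he => EqvGen.mono (r := Step R n) (p := Red R) (fun _ _ h => ⟨n, h⟩) _ _ (h e he)

theorem sub_update {W : Type v} (σ : ℕ → Tm ar W) {f : F} (a : Fin (ar f) → Tm ar ℕ)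
    (i : Fin (ar f)) (t : Tm ar ℕ) : (Tm.node f (Function.update a i t)).sub σ =
      .node f (Function.update (fun j => (a j).sub σ) i (t.sub σ)) := by
  simp only [Tm.sub]
  congr 1
  funext j
  by_cases h : j = i
  · subst h; simp
  · simp [Function.update_of_ne h]

theorem variant_level {ρ : Rule ar} {σ : ℕ → Tm ar ℕ} {n : ℕ}
    (h : ∀ e ∈ ρ.conds, EqvGen (Step R n) (e.1.sub σ) (e.2.sub σ)) {r' : Tm ar ℕ}
    (hv : Variant ρ r') : EqvGen (Step R n) (ρ.r.sub σ) (r'.sub σ) := by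
  have one : ∀ s t, Ctx (fun s t => (s, t) ∈ ρ.conds) s t →
      EqvGen (Step R n) (s.sub σ) (t.sub σ) := by
    intro s t hs
    induction hs with
    | root h1 => exact h _ h1
    | arg f a i _ ih =>
      rw [sub_update]
      exact eqv_arg (step_arg n) (fun j => (a j).sub σ) i _ ih
  unfold Variant at hv
  generalize ρ.r = r at hv
  induction hv with
  | rel _ _ h1 => exact one _ _ h1
  | refl => exact .refl _
  | symm _ _ _ ih => exact .symm _ _ ih
  | trans _ _ _ _ _ ih1 ih2 => exact .trans _ _ _ ih1 ih2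

theorem variant_occ {ρ : Rule ar} (hw : ρ.WF) {r' : Tm ar ℕ} (hv : Variant ρ r') :
    ∀ x, r'.Occ x → ρ.l.Occ x := by
  have one : ∀ s t, Ctx (fun s t => (s, t) ∈ ρ.conds) s t →
      ∀ x, ¬ ρ.l.Occ x → (s.Occ x ↔ t.Occ x) := by
    intro s t hs x hx
    induction hs with
    | root h1 =>
      exact ⟨fun h => (hx (hw.2.2.2 _ h1 x (.inl h))).elim,
        fun h => (hx (hw.2.2.2 _ h1 x (.inr h))).elim⟩
    | arg f a i _ ih =>
      refine exists_congr fun j => ?_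
      by_cases h : j = i
      · subst h; simpa using ih
      · simp [Function.update_of_ne h]
  have all : ∀ s t, EqvGen (Ctx fun s t => (s, t) ∈ ρ.conds) s t →
      ∀ x, ¬ ρ.l.Occ x → (s.Occ x ↔ t.Occ x) := by
    intro s t hs x hx
    induction hs with
    | rel _ _ h1 => exact one _ _ h1 x hx
    | refl => rfl
    | symm _ _ _ ih => exact ih.symm
    | trans _ _ _ _ _ ih1 ih2 => exact ih1.trans ih2
  intro x hx
  by_contra hl
  exact hl (hw.2.2.1 x ((all _ _ hv x hl).2 hx))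

end Pool.Agent.MP_18c441_lc

end

section

/-!
Intersection types with join tokens, their realisers, subtyping and typing; adequacy.
-/

namespace Pool.Agent.MP_18c441_lc

open Relation

variable {F : Type} {ar : F → ℕ}

/-- Types. -/
inductive Tok {F : Type} (ar : F → ℕ) : Type 1
  | jn : Tm ar ℕ → Tok ar
  | con : (f : F) → (Fin (ar f) → Tok ar) → Tok ar
  | all : (ι : Type) → (ι → Tok ar) → Tok ar

/-- A pattern with types at its variables, as a type. -/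
def pat (Γ : ℕ → Tok ar) : Tm ar ℕ → Tok ar
  | .var x => Γ x
  | .node f a => .con f fun i => pat Γ (a i)

/-- A term with types at its variables. -/
def env (Γ : ℕ → Tok ar) (t : Tm ar ℕ) : Tm ar (Tok ar) := t.sub fun x => .var (Γ x)

/-- Joinability. -/
def Jn (R : Set (Rule ar)) (t u : Tm ar ℕ) : Prop := ∃ w, RT R t w ∧ RT R u w

/-- Realisers of a type. -/
def Re (R : Set (Rule ar)) : Tok ar → Tm ar ℕ → Prop
  | .jn u, t => Jn R t u
  | .con f τ, t => ∃ a, RT R t (.node f a) ∧ ∀ i, Re R (τ i) (a i)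
  | .all _ g, t => ∀ k, Re R (g k) t

/-- Leafwise realisers of a term over types. -/
def ReT (R : Set (Rule ar)) : Tm ar (Tok ar) → Tm ar ℕ → Prop
  | .var α, t => Re R α t
  | .node f s, t => ∃ a, t = .node f a ∧ ∀ i, ReT R (s i) (a i)

/-- The types fix the conversion classes of the variables of p. -/
def Forces (R : Set (Rule ar)) (Γ : ℕ → Tok ar) (θ : ℕ → Tm ar ℕ) (p : Tm ar ℕ) : Prop :=
  ∀ x, p.Occ x → ∀ t, Re R (Γ x) t → Cv R t (θ x)

/-- Admissible constructor types. -/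
def Adm (R : Set (Rule ar)) (f : F) (τ : Fin (ar f) → Tok ar) : Prop :=
  ∃ ρ ∈ R, ∃ (p : Fin (ar f) → Tm ar ℕ) (Γ : ℕ → Tok ar) (θ : ℕ → Tm ar ℕ),
    PSub (.node f p) ρ.l ∧ (∀ i, τ i = pat Γ (p i)) ∧ Holds R ρ θ ∧ Forces R Γ θ (.node f p)

/-- Subtyping. -/
inductive Le (R : Set (Rule ar)) : Tok ar → Tok ar → Prop
  | refl (α : Tok ar) : Le R α α
  | trans {α β γ : Tok ar} : Le R α β → Le R β γ → Le R α γ
  | allE (ι : Type) (g : ι → Tok ar) (k : ι) : Le R (.all ι g) (g k)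
  | allI {α : Tok ar} (ι : Type) (g : ι → Tok ar) : (∀ k, Le R α (g k)) → Le R α (.all ι g)
  | jj {u u' : Tm ar ℕ} : RT R u u' → Le R (.jn u') (.jn u)
  | cj {u : Tm ar ℕ} (f : F) (τ : Fin (ar f) → Tok ar) (b : Fin (ar f) → Tm ar ℕ) :
      RT R u (.node f b) → (∀ i, Le R (τ i) (.jn (b i))) → Le R (.con f τ) (.jn u)
  | cc (f : F) (τ τ' : Fin (ar f) → Tok ar) :
      Adm R f τ' → (∀ i, Le R (τ i) (τ' i)) → Le R (.con f τ) (.con f τ')

/-- Typing. -/
inductive Has (R : Set (Rule ar)) : Tm ar (Tok ar) → Tok ar → Prop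
  | var {α γ : Tok ar} : Le R α γ → Has R (.var α) γ
  | all {s : Tm ar (Tok ar)} (ι : Type) (g : ι → Tok ar) :
      (∀ k, Has R s (g k)) → Has R s (.all ι g)
  | con (f : F) (a : Fin (ar f) → Tm ar (Tok ar)) (τ : Fin (ar f) → Tok ar) :
      Adm R f τ → (∀ i, Has R (a i) (τ i)) → Has R (.node f a) (.con f τ)
  | jn {u : Tm ar ℕ} (f : F) (a : Fin (ar f) → Tm ar (Tok ar)) (b : Fin (ar f) → Tm ar ℕ) :
      RT R u (.node f b) → (∀ i, Has R (a i) (.jn (b i))) → Has R (.node f a) (.jn u)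
  | rule {α : Tok ar} (f : F) (a : Fin (ar f) → Tm ar (Tok ar)) (ρ : Rule ar)
      (l : Fin (ar f) → Tm ar ℕ) (Γ : ℕ → Tok ar) (θ : ℕ → Tm ar ℕ) :
      ρ ∈ R → ρ.l = .node f l → (∀ i, Has R (a i) (pat Γ (l i))) → Holds R ρ θ →
      Forces R Γ θ ρ.l → (∀ r', Variant ρ r' → Has R (env Γ r') α) → Has R (.node f a) α

variable {R : Set (Rule ar)}

theorem Jn.cv {t u : Tm ar ℕ} (h : Jn R t u) : Cv R t u :=
  let ⟨_, h1, h2⟩ := h
  .trans _ _ _ (cv_of_rt h1) (.symm _ _ (cv_of_rt h2))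

theorem re_expand {t t' : Tm ar ℕ} (h : RT R t t') : ∀ α, Re R α t' → Re R α t
  | .jn _, ⟨w, h1, h2⟩ => ⟨w, h.trans h1, h2⟩
  | .con _ _, ⟨a, h1, h2⟩ => ⟨a, h.trans h1, h2⟩
  | .all _ g, h1 => fun k => re_expand h (g k) (h1 k)

theorem jn_node {u t : Tm ar ℕ} {f : F} {a b : Fin (ar f) → Tm ar ℕ} (h1 : RT R u (.node f b))
    (h2 : RT R t (.node f a)) (h : ∀ i, Jn R (a i) (b i)) : Jn R t u := by
  choose w hw using h
  exact ⟨.node f w, h2.trans (rt_node fun i => (hw i).1), h1.trans (rt_node fun i => (hw i).2)⟩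

theorem Le.sound {α γ : Tok ar} (h : Le R α γ) : ∀ t, Re R α t → Re R γ t := by
  induction h with
  | refl => exact fun _ h => h
  | trans _ _ ih1 ih2 => exact fun t h => ih2 t (ih1 t h)
  | allE ι g k => exact fun t h => h k
  | allI ι g _ ih => exact fun t h k => ih k t h
  | jj h1 => exact fun t ⟨w, h2, h3⟩ => ⟨w, h2, h1.trans h3⟩
  | cj f τ b h1 _ ih => exact fun t ⟨a, h2, h3⟩ => jn_node h1 h2 fun i => ih i _ (h3 i)
  | cc f τ τ' _ _ ih => exact fun t ⟨a, h2, h3⟩ => ⟨a, h2, fun i => ih i _ (h3 i)⟩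

theorem re_args {Γ : ℕ → Tok ar} {f : F} {l a : Fin (ar f) → Tm ar ℕ}
    (hl : (Tm.node f l).Linear) (d : ℕ → Tm ar ℕ)
    (h : ∀ i, ∃ τ, RT R (a i) ((l i).sub τ) ∧ ∀ x, (l i).Occ x → Re R (Γ x) (τ x)) :
    ∃ τ, (∀ i, RT R (a i) ((l i).sub τ)) ∧ (∀ x, (Tm.node f l).Occ x → Re R (Γ x) (τ x)) ∧
      ∀ x, ¬ (Tm.node f l).Occ x → τ x = d x := by
  choose τ h1 h2 using h
  obtain ⟨θ, h3, h4⟩ := merge hl d τ
  refine ⟨θ, fun i => ?_, fun x ⟨i, hx⟩ => ?_, h4⟩
  · rw [sub_congr (l i) (h3 i)]; exact h1 i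
  · rw [h3 i x hx]; exact h2 i x hx

theorem re_pat {Γ : ℕ → Tok ar} : ∀ p : Tm ar ℕ, p.Linear → ∀ t, Re R (pat Γ p) t →
    ∃ τ, RT R t (p.sub τ) ∧ ∀ x, p.Occ x → Re R (Γ x) (τ x)
  | .var x, _, t, h => ⟨fun _ => t, .refl, fun y hy => by
      have : y = x := hy
      subst this
      exact h⟩
  | .node f l, hl, t, ⟨a, h1, h2⟩ => by
    obtain ⟨τ, h3, h4, -⟩ := re_args hl Tm.var fun i => re_pat (l i) (hl.1 i) (a i) (h2 i)
    exact ⟨τ, h1.trans (rt_node h3), h4⟩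

theorem ret_sub {μ : ℕ → Tm ar (Tok ar)} {σ : ℕ → Tm ar ℕ} :
    ∀ t : Tm ar ℕ, (∀ x, t.Occ x → ReT R (μ x) (σ x)) → ReT R (t.sub μ) (t.sub σ)
  | .var x, h => h x rfl
  | .node _ a, h => ⟨_, rfl, fun i => ret_sub (a i) fun x hx => h x ⟨i, hx⟩⟩

theorem adequacy (hw : ∀ ρ ∈ R, ρ.WF) {s : Tm ar (Tok ar)} {α : Tok ar} (h : Has R s α) :
    ∀ t, ReT R s t → Re R α t := by
  induction h with
  | var h1 => exact fun t ht => h1.sound t ht
  | all ι g _ ih => exact fun t ht k => ih k t ht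
  | con f a τ _ _ ih =>
    rintro t ⟨b, rfl, hb⟩
    exact ⟨b, .refl, fun i => ih i _ (hb i)⟩
  | jn f a b h1 _ ih =>
    rintro t ⟨c, rfl, hc⟩
    exact jn_node h1 .refl fun i => ih i _ (hc i)
  | rule f a ρ l Γ θ hρ hl _ hθ hf _ ih1 ih2 =>
    rintro t ⟨b, rfl, hb⟩
    have hlin : (Tm.node f l).Linear := hl ▸ (hw ρ hρ).2.1
    obtain ⟨τ, h3, h4, -⟩ := re_args hlin Tm.var fun i =>
      re_pat (l i) (hlin.1 i) (b i) (ih1 i _ (hb i))
    rw [← hl] at h4
    have hτ : Holds R ρ τ := hθ.congr (hw ρ hρ) fun x hx => .symm _ _ (hf x hx _ (h4 x hx))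
    have h5 : RT R (.node f b) (ρ.l.sub τ) := by rw [hl]; exact rt_node h3
    refine re_expand (h5.tail (red_root hρ hτ)) _ (ih2 ρ.r (.refl _) _ ?_)
    exact ret_sub _ fun x hx => h4 x ((hw ρ hρ).2.2.1 x hx)

theorem has_allE {s : Tm ar (Tok ar)} {ι : Type} {g : ι → Tok ar} (h : Has R s (.all ι g))
    (k : ι) : Has R s (g k) := by
  generalize hα : Tok.all ι g = α at h
  induction h with
  | var h1 => exact .var (.trans (hα ▸ h1) (.allE ι g k))
  | all ι' g' h1 _ =>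
    cases hα
    exact h1 k
  | con => cases hα
  | jn => cases hα
  | rule f a ρ l Γ θ hρ hl h1 hθ hf _ _ ih2 =>
    exact .rule f a ρ l Γ θ hρ hl h1 hθ hf fun r' hr => ih2 r' hr hα

theorem has_le {α γ : Tok ar} (h : Le R α γ) : ∀ s, Has R s α → Has R s γ := by
  induction h with
  | refl => exact fun _ h => h
  | trans _ _ ih1 ih2 => exact fun s h => ih2 s (ih1 s h)
  | allE ι g k => exact fun s h => has_allE h k
  | allI ι g _ ih => exact fun s h => .all ι g fun k => ih k s h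
  | @jj u u' h1 =>
    intro s h
    generalize hα : Tok.jn u' = α at h
    induction h with
    | var h2 => exact .var (.trans (hα ▸ h2) (.jj h1))
    | all => cases hα
    | con => cases hα
    | jn f a b h2 h3 _ =>
      cases hα
      exact .jn f a b (h1.trans h2) h3
    | rule f a ρ l Γ θ hρ hl h1 hθ hf _ _ ih2 =>
      exact .rule f a ρ l Γ θ hρ hl h1 hθ hf fun r' hr => ih2 r' hr hα
  | @cj u f τ b h1 h2 ih =>
    intro s h
    generalize hα : Tok.con f τ = α at h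
    induction h with
    | var h3 => exact .var (.trans (hα ▸ h3) (.cj f τ b h1 h2))
    | all => cases hα
    | con g a τ' _ h3 _ =>
      cases hα
      exact .jn f a b h1 fun i => ih i _ (h3 i)
    | jn => cases hα
    | rule f a ρ l Γ θ hρ hl h1 hθ hf _ _ ih2 =>
      exact .rule f a ρ l Γ θ hρ hl h1 hθ hf fun r' hr => ih2 r' hr hα
  | cc f τ τ' h1 h2 ih =>
    intro s h
    generalize hα : Tok.con f τ = α at h
    induction h with
    | var h3 => exact .var (.trans (hα ▸ h3) (.cc f τ τ' h1 h2))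
    | all => cases hα
    | con g a τ'' _ h3 _ =>
      cases hα
      exact .con f a τ' h1 fun i => ih i _ (h3 i)
    | jn => cases hα
    | rule f a ρ l Γ θ hρ hl h1 hθ hf _ _ ih2 =>
      exact .rule f a ρ l Γ θ hρ hl h1 hθ hf fun r' hr => ih2 r' hr hα

theorem has_node {f : F} {a b : Fin (ar f) → Tm ar (Tok ar)}
    (hab : ∀ i γ, Has R (a i) γ → Has R (b i) γ) {α : Tok ar} (h : Has R (.node f a) α) :
    Has R (.node f b) α := by
  generalize hs : Tm.node f a = s at h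
  induction h with
  | var => cases hs
  | all ι g _ ih => exact .all ι g fun k => ih k hs
  | con g c τ h1 h2 _ =>
    cases hs
    exact .con f b τ h1 fun i => hab i _ (h2 i)
  | jn g c d h1 h2 _ =>
    cases hs
    exact .jn f b d h1 fun i => hab i _ (h2 i)
  | rule g c ρ l Γ θ hρ hl h1 hθ hf h2 _ _ =>
    cases hs
    exact .rule f b ρ l Γ θ hρ hl (fun i => hab i _ (h1 i)) hθ hf h2

theorem has_mono {μ ν : ℕ → Tm ar (Tok ar)} : ∀ t : Tm ar ℕ,
    (∀ x, t.Occ x → ∀ γ, Has R (μ x) γ → Has R (ν x) γ) → ∀ α, Has R (t.sub μ) α →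
      Has R (t.sub ν) α
  | .var x, h, α, h1 => h x rfl α h1
  | .node _ a, h, _, h1 => has_node (fun i => has_mono (a i) fun x hx => h x ⟨i, hx⟩) h1

theorem le_of_has_var {α γ : Tok ar} (h : Has R (.var α) γ) : Le R α γ := by
  generalize hs : Tm.var α = s at h
  induction h with
  | var h1 =>
    cases hs
    exact h1
  | all ι g _ ih => exact .allI ι g fun k => ih k hs
  | con => cases hs
  | jn => cases hs
  | rule => cases hs

theorem has_env {μ : ℕ → Tm ar (Tok ar)} {Γ : ℕ → Tok ar} (t : Tm ar ℕ)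
    (h : ∀ x, t.Occ x → Has R (μ x) (Γ x)) {α : Tok ar} (h1 : Has R (env Γ t) α) :
    Has R (t.sub μ) α :=
  has_mono t (fun x hx _ hγ => has_le (le_of_has_var hγ) _ (h x hx)) α h1

theorem env_meet {ι : Type} (Γ : ι → ℕ → Tok ar) (k : ι) (t : Tm ar ℕ) {α : Tok ar}
    (h : Has R (env (Γ k) t) α) : Has R (env (fun x => .all ι fun k => Γ k x) t) α :=
  has_env t (fun x _ => .var (.allE ι (fun k => Γ k x) k)) h

theorem has_rev {μ : ℕ → Tm ar (Tok ar)} {s : Tm ar (Tok ar)} {α : Tok ar} (h : Has R s α) :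
    ∀ t : Tm ar ℕ, s = t.sub μ → ∃ Γ, Has R (env Γ t) α ∧ ∀ x, Has R (μ x) (Γ x) := by
  classical
  have hv : ∀ (s : Tm ar (Tok ar)) (α : Tok ar) (x : ℕ), Has R s α → s = (Tm.var x).sub μ →
      ∃ Γ, Has R (env Γ (.var x)) α ∧ ∀ x, Has R (μ x) (Γ x) := by
    intro s α x h hs
    refine ⟨fun y => if y = x then α else .all Empty Empty.elim, ?_, fun y => ?_⟩
    · simpa [env, Tm.sub] using Has.var (.refl α)
    · by_cases hy : y = x
      · subst hy
        simp only [if_true]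
        exact (show s = μ y from hs) ▸ h
      · simp only [hy, if_false]
        exact .all _ _ fun k => k.elim
  induction h with
  | var h1 =>
    intro t ht
    cases t with
    | var x => exact hv _ _ x (.var h1) ht
    | node => cases ht
  | all ι g _ ih =>
    intro t ht
    choose Γ h1 h2 using fun k => ih k t ht
    exact ⟨_, .all ι g fun k => env_meet Γ k t (h1 k), fun x => .all _ _ fun k => h2 k x⟩
  | con f a τ h0 h1 ih =>
    intro t ht
    cases t with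
    | var x => exact hv _ _ x (.con f a τ h0 h1) ht
    | node g b =>
      cases ht
      choose Γ h1 h2 using fun i => ih i (b i) rfl
      exact ⟨_, .con f _ τ h0 fun i => env_meet Γ i _ (h1 i), fun x => .all _ _ fun k => h2 k x⟩
  | jn f a c h0 h1 ih =>
    intro t ht
    cases t with
    | var x => exact hv _ _ x (.jn f a c h0 h1) ht
    | node g b =>
      cases ht
      choose Γ h1 h2 using fun i => ih i (b i) rfl
      exact ⟨_, .jn f _ c h0 fun i => env_meet Γ i _ (h1 i), fun x => .all _ _ fun k => h2 k x⟩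
  | rule f a ρ l Δ θ hρ hl h1 hθ hf h3 ih _ =>
    intro t ht
    cases t with
    | var x => exact hv _ _ x (.rule f a ρ l Δ θ hρ hl h1 hθ hf h3) ht
    | node g b =>
      cases ht
      choose Γ h1 h2 using fun i => ih i (b i) rfl
      exact ⟨_, .rule f _ ρ l Δ θ hρ hl (fun i => env_meet Γ i _ (h1 i)) hθ hf h3,
        fun x => .all _ _ fun k => h2 k x⟩

theorem has_jn_sub {μ : ℕ → Tm ar (Tok ar)} {θ : ℕ → Tm ar ℕ} : ∀ t : Tm ar ℕ,
    (∀ x, t.Occ x → Has R (μ x) (.jn (θ x))) → Has R (t.sub μ) (.jn (t.sub θ))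
  | .var x, h => h x rfl
  | .node f a, h => .jn f _ _ .refl fun i => has_jn_sub (a i) fun x hx => h x ⟨i, hx⟩

end Pool.Agent.MP_18c441_lc

end

section

/-!
Rigidity of the proper subterms of left sides.
-/

namespace Pool.Agent.MP_18c441_lc

open Relation

variable {F : Type} {ar : F → ℕ}

/-- Overlaps below the root are infeasible. -/
def Inner (R : Set (Rule ar)) : Prop :=
  ∀ ρ₁ ∈ R, ∀ ρ₂ ∈ R, ∀ p, PSub p ρ₁.l → (∀ x, p ≠ .var x) → ∀ σ₁ σ₂ : ℕ → Tm ar ℕ,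
    p.sub σ₁ = ρ₂.l.sub σ₂ → Holds R ρ₁ σ₁ → Holds R ρ₂ σ₂ → False

variable {R : Set (Rule ar)}

theorem rigid_step (hw : ∀ ρ ∈ R, ρ.WF) (hi : Inner R) {ρ : Rule ar} (hρ : ρ ∈ R)
    {σ : ℕ → Tm ar ℕ} (hσ : Holds R ρ σ) : ∀ p, PSub p ρ.l → ∀ w, Red R (p.sub σ) w →
      ∃ σ' : ℕ → Tm ar ℕ, w = p.sub σ' ∧ ∀ x, Cv R (σ x) (σ' x)
  | .var y, _, w, h => by
    classical
    refine ⟨Function.update σ y w, by simp [Tm.sub], fun x => ?_⟩
    by_cases hx : x = y
    · subst hx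
      rw [Function.update_self]
      exact EqvGen.rel _ _ h
    · simpa [Function.update_of_ne hx] using EqvGen.refl _
  | .node f l, hp, w, ⟨n, h⟩ => by
    classical
    cases n with
    | zero => exact h.elim
    | succ n =>
      have h' : Ctx _ (Tm.node f fun i => (l i).sub σ) w := h
      generalize hs : (Tm.node f fun i => (l i).sub σ) = s at h'
      cases h' with
      | root h1 =>
        obtain ⟨ρ₂, hρ₂, σ₂, h2, -, h3⟩ := h1
        exact (hi ρ hρ ρ₂ hρ₂ _ hp (fun x hx => by cases hx) σ σ₂ (hs.trans h2) hσ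
          (holds_of_level h3)).elim
      | @arg g a i t h1 =>
        cases hs
        obtain ⟨σ', h2, h3⟩ := rigid_step hw hi hρ hσ (l i) (hp.down i) t ⟨n + 1, h1⟩
        have hlin := hp.linear (hw ρ hρ).2.1
        refine ⟨fun x => if (l i).Occ x then σ' x else σ x, ?_, fun x => ?_⟩
        · simp only [Tm.sub]
          congr 1
          funext j
          by_cases hj : j = i
          · subst hj
            rw [Function.update_self, h2]
            exact sub_congr _ fun x hx => by simp [hx]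
          · rw [Function.update_of_ne hj]
            exact sub_congr _ fun x hx => by
              have : ¬ (l i).Occ x := fun hx' => hj (hlin.2 _ _ x hx hx')
              simp [this]
        · by_cases hx : (l i).Occ x
          · simpa [hx] using h3 x
          · simpa [hx] using EqvGen.refl _

theorem rigid_rt (hw : ∀ ρ ∈ R, ρ.WF) (hi : Inner R) {ρ : Rule ar} (hρ : ρ ∈ R)
    {σ : ℕ → Tm ar ℕ} (hσ : Holds R ρ σ) {p : Tm ar ℕ} (hp : PSub p ρ.l) {w : Tm ar ℕ}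
    (h : RT R (p.sub σ) w) : ∃ σ' : ℕ → Tm ar ℕ, w = p.sub σ' ∧ ∀ x, Cv R (σ x) (σ' x) := by
  induction h with
  | refl => exact ⟨σ, rfl, fun _ => .refl _⟩
  | tail _ h2 ih =>
    obtain ⟨σ', rfl, h3⟩ := ih
    obtain ⟨σ'', h4, h5⟩ := rigid_step hw hi hρ (hσ.congr (hw ρ hρ) fun x _ => h3 x) p hp _ h2
    exact ⟨σ'', h4, fun x => .trans _ _ _ (h3 x) (h5 x)⟩

/-- A typing of the arguments of a rigid pattern by another pattern gives a common instance
in the right conversion classes. -/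
theorem feas (hw : ∀ ρ ∈ R, ρ.WF) (hi : Inner R) {ρ : Rule ar} (hρ : ρ ∈ R)
    {σ : ℕ → Tm ar ℕ} (hσ : Holds R ρ σ) {f : F} {l q : Fin (ar f) → Tm ar ℕ}
    (hl : ∀ i, PSub (l i) ρ.l) (hll : (Tm.node f l).Linear) (hq : (Tm.node f q).Linear)
    {μ : ℕ → Tm ar (Tok ar)} (hμ : ∀ x, (Tm.node f l).Occ x → ReT R (μ x) (σ x))
    {Γ : ℕ → Tok ar} {θ : ℕ → Tm ar ℕ} (hf : Forces R Γ θ (.node f q))
    (h : ∀ i, Has R ((l i).sub μ) (pat Γ (q i))) :
    ∃ σ' τ : ℕ → Tm ar ℕ, (Tm.node f l).sub σ' = (Tm.node f q).sub τ ∧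
      (∀ x, Cv R (σ x) (σ' x)) ∧ ∀ y, Cv R (θ y) (τ y) := by
  obtain ⟨τ, h1, h2, h3⟩ := re_args (a := fun i => (l i).sub σ) hq θ fun i =>
    re_pat (q i) (hq.1 i) _ (adequacy hw (h i) _ (ret_sub _ fun x hx => hμ x ⟨i, hx⟩))
  choose σ' h4 h5 using fun i => rigid_rt hw hi hρ hσ (hl i) (h1 i)
  obtain ⟨σ'', h6, h7⟩ := merge hll σ σ'
  refine ⟨σ'', τ, ?_, fun x => ?_, fun y => ?_⟩
  · simp only [Tm.sub]
    congr 1
    funext i
    rw [h4 i]
    exact sub_congr _ (h6 i)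
  · by_cases hx : (Tm.node f l).Occ x
    · obtain ⟨i, hx⟩ := hx
      rw [h6 i x hx]
      exact h5 i x
    · rw [h7 x hx]
      exact .refl _
  · by_cases hy : (Tm.node f q).Occ y
    · exact .symm _ _ (hf y hy _ (h2 y hy))
    · rw [h3 y hy]
      exact .refl _

theorem no_rule (hw : ∀ ρ ∈ R, ρ.WF) (hi : Inner R) {ρ : Rule ar} (hρ : ρ ∈ R)
    {σ : ℕ → Tm ar ℕ} (hσ : Holds R ρ σ) {f : F} {l : Fin (ar f) → Tm ar ℕ}
    (hp : PSub (.node f l) ρ.l) {μ : ℕ → Tm ar (Tok ar)}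
    (hμ : ∀ x, (Tm.node f l).Occ x → ReT R (μ x) (σ x)) {ρ₃ : Rule ar} (hρ₃ : ρ₃ ∈ R)
    {q : Fin (ar f) → Tm ar ℕ} (hq : ρ₃.l = .node f q) {Γ : ℕ → Tok ar} {θ : ℕ → Tm ar ℕ}
    (hθ : Holds R ρ₃ θ) (hf : Forces R Γ θ ρ₃.l)
    (h : ∀ i, Has R ((l i).sub μ) (pat Γ (q i))) : False := by
  obtain ⟨σ', τ, h1, h2, h3⟩ := feas hw hi hρ hσ hp.down (hp.linear (hw ρ hρ).2.1)
    (hq ▸ (hw ρ₃ hρ₃).2.1) hμ (hq ▸ hf) h
  exact hi ρ hρ ρ₃ hρ₃ _ hp (fun x hx => by cases hx) σ' τ (hq ▸ h1)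
    (hσ.congr (hw ρ hρ) fun x _ => h2 x) (hθ.congr (hw ρ₃ hρ₃) fun x _ => h3 x)

theorem le_pat (hw : ∀ ρ ∈ R, ρ.WF) (hi : Inner R) {ρ : Rule ar} (hρ : ρ ∈ R)
    {τ : ℕ → Tm ar ℕ} (hτ : Holds R ρ τ) {Γ : ℕ → Tok ar} : ∀ q, PSub q ρ.l →
      (∀ y, q.Occ y → Re R (Γ y) (τ y)) → ∀ γ, Has R (env Γ q) γ → Le R (pat Γ q) γ
  | .var _, _, _, _, h => le_of_has_var h
  | .node f q, hq, hr, γ, h => by
    have ih := fun i => le_pat hw hi hρ hτ (q i) (hq.down i) fun y hy => hr y ⟨i, hy⟩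
    have h' : Has R (.node f fun i => env Γ (q i)) γ := h
    clear h
    generalize hs : (Tm.node f fun i => env Γ (q i)) = s at h'
    induction h' with
    | var => cases hs
    | all ι g _ ih' => exact .allI ι g fun k => ih' k hs
    | con g a τ' h1 h2 _ =>
      cases hs
      exact .cc f _ τ' h1 fun i => ih i _ (h2 i)
    | jn g a b h1 h2 _ =>
      cases hs
      exact .cj f _ b h1 fun i => ih i _ (h2 i)
    | rule g a ρ₃ l Δ θ hρ₃ hl h1 hθ hf _ _ _ =>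
      cases hs
      exact (no_rule hw hi hρ hτ hq (μ := fun x => .var (Γ x)) hr hρ₃ hl hθ hf h1).elim

theorem unif_args {f : F} {p q : Fin (ar f) → Tm ar ℕ} (hp : (Tm.node f p).Linear)
    (hq : (Tm.node f q).Linear) {μ : ℕ → Tm ar (Tok ar)} {Γ : ℕ → Tok ar}
    (h : ∀ i, ∃ μ₁ μ₂ : ℕ → Tm ar (Tok ar), (p i).sub μ₁ = (q i).sub μ₂ ∧
      (∀ y, (q i).Occ y → Has R (μ₂ y) (Γ y)) ∧
      ∀ x, (p i).Occ x → ∀ γ, Has R (μ₁ x) γ → Has R (μ x) γ) :
    ∃ μ₁ μ₂ : ℕ → Tm ar (Tok ar), (Tm.node f p).sub μ₁ = (Tm.node f q).sub μ₂ ∧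
      (∀ y, (Tm.node f q).Occ y → Has R (μ₂ y) (Γ y)) ∧
      ∀ x, (Tm.node f p).Occ x → ∀ γ, Has R (μ₁ x) γ → Has R (μ x) γ := by
  choose μ₁ μ₂ h1 h2 h3 using h
  obtain ⟨ν₁, h4, -⟩ := merge hp μ μ₁
  obtain ⟨ν₂, h5, -⟩ := merge hq μ μ₂
  refine ⟨ν₁, ν₂, ?_, fun y ⟨i, hy⟩ => ?_, fun x ⟨i, hx⟩ => ?_⟩
  · simp only [Tm.sub]
    congr 1
    funext i
    rw [sub_congr _ (h4 i), sub_congr _ (h5 i), h1 i]
  · rw [h5 i y hy]; exact h2 i y hy
  · rw [h4 i x hx]; exact h3 i x hx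

theorem unif (hw : ∀ ρ ∈ R, ρ.WF) (hi : Inner R) {ρ₁ ρ₂ : Rule ar} (hρ₁ : ρ₁ ∈ R)
    (hρ₂ : ρ₂ ∈ R) {σ θ : ℕ → Tm ar ℕ} (hσ : Holds R ρ₁ σ) (hθ : Holds R ρ₂ θ)
    {μ : ℕ → Tm ar (Tok ar)} (hμ : ∀ x, ReT R (μ x) (σ x)) {Γ : ℕ → Tok ar}
    (hf : Forces R Γ θ ρ₂.l) : ∀ q p, PSub q ρ₂.l → PSub p ρ₁.l → Has R (p.sub μ) (pat Γ q) →
      ∃ μ₁ μ₂ : ℕ → Tm ar (Tok ar), p.sub μ₁ = q.sub μ₂ ∧ (∀ y, q.Occ y → Has R (μ₂ y) (Γ y)) ∧
        ∀ x, p.Occ x → ∀ γ, Has R (μ₁ x) γ → Has R (μ x) γ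
  | .var y, p, _, _, h => ⟨μ, fun _ => p.sub μ, rfl, fun z hz => by
      have : z = y := hz
      subst this
      exact h, fun _ _ _ h => h⟩
  | .node g q, .var x, hq, _, h => by
    classical
    refine ⟨fun _ => env Γ (.node g q), fun y => .var (Γ y), rfl, fun y _ => .var (.refl _),
      fun z hz γ hγ => ?_⟩
    have : z = x := hz
    subst this
    obtain ⟨τ, -, h2⟩ := re_pat _ (hq.linear (hw ρ₂ hρ₂).2.1) _ (adequacy hw h _ (hμ z))
    have hτ : Holds R ρ₂ fun y => if (Tm.node g q).Occ y then τ y else θ y :=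
      hθ.congr (hw ρ₂ hρ₂) fun y hy => by
        by_cases h3 : (Tm.node g q).Occ y
        · simp only [h3, if_true]
          exact .symm _ _ (hf y hy _ (h2 y h3))
        · simp only [h3, if_false]
          exact .refl _
    exact has_le (le_pat hw hi hρ₂ hτ _ hq (fun y hy => by simpa [hy] using h2 y hy) γ hγ) _ h
  | .node g q, .node f p, hq, hp, h => by
    have h' : Has R (.node f fun i => (p i).sub μ) (.con g fun i => pat Γ (q i)) := h
    generalize hs : (Tm.node f fun i => (p i).sub μ) = s at h'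
    generalize hα : (Tok.con g fun i => pat Γ (q i)) = α at h'
    cases h' with
    | var => cases hs
    | all => cases hα
    | con k a τ _ h2 =>
      cases hs
      cases hα
      exact unif_args (hp.linear (hw ρ₁ hρ₁).2.1) (hq.linear (hw ρ₂ hρ₂).2.1) fun i =>
        unif hw hi hρ₁ hρ₂ hσ hθ hμ hf (q i) (p i) (hq.down i) (hp.down i) (h2 i)
    | jn => cases hα
    | rule k a ρ₃ l Δ θ' hρ₃ hl h1 hθ' hf' _ =>
      cases hs
      exact (no_rule hw hi hρ₁ hσ hp (fun x _ => hμ x) hρ₃ hl hθ' hf' h1).elim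

theorem jn_args {f : F} {p b : Fin (ar f) → Tm ar ℕ} (hp : (Tm.node f p).Linear)
    {μ : ℕ → Tm ar (Tok ar)}
    (h : ∀ i, ∃ θ, RT R (b i) ((p i).sub θ) ∧ ∀ x, (p i).Occ x → Has R (μ x) (.jn (θ x))) :
    ∃ θ, RT R (.node f b) ((Tm.node f p).sub θ) ∧
      ∀ x, (Tm.node f p).Occ x → Has R (μ x) (.jn (θ x)) := by
  choose θ h1 h2 using h
  obtain ⟨θ', h3, -⟩ := merge hp Tm.var θ
  refine ⟨θ', rt_node fun i => ?_, fun x ⟨i, hx⟩ => ?_⟩
  · rw [sub_congr _ (h3 i)]; exact h1 i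
  · rw [h3 i x hx]; exact h2 i x hx

theorem jn_pat (hw : ∀ ρ ∈ R, ρ.WF) (hi : Inner R) {ρ : Rule ar} (hρ : ρ ∈ R)
    {σ : ℕ → Tm ar ℕ} (hσ : Holds R ρ σ) {μ : ℕ → Tm ar (Tok ar)}
    (hμ : ∀ x, ReT R (μ x) (σ x)) : ∀ p, PSub p ρ.l → ∀ u, Has R (p.sub μ) (.jn u) →
      ∃ θ, RT R u (p.sub θ) ∧ ∀ x, p.Occ x → Has R (μ x) (.jn (θ x))
  | .var y, _, u, h => ⟨fun _ => u, .refl, fun x hx => by
      have : x = y := hx
      subst this
      exact h⟩
  | .node f p, hp, u, h => by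
    have h' : Has R (.node f fun i => (p i).sub μ) (.jn u) := h
    generalize hs : (Tm.node f fun i => (p i).sub μ) = s at h'
    generalize hα : Tok.jn u = α at h'
    cases h' with
    | var => cases hs
    | all => cases hα
    | con => cases hα
    | jn k a b h1 h2 =>
      cases hs
      cases hα
      obtain ⟨θ, h3, h4⟩ := jn_args (hp.linear (hw ρ hρ).2.1) fun i =>
        jn_pat hw hi hρ hσ hμ (p i) (hp.down i) _ (h2 i)
      exact ⟨θ, h1.trans h3, h4⟩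
    | rule k a ρ₃ l Δ θ' hρ₃ hl h1 hθ' hf' _ =>
      cases hs
      exact (no_rule hw hi hρ hσ hp (fun x _ => hμ x) hρ₃ hl hθ' hf' h1).elim

theorem has_pat {ρ : Rule ar} (hρ : ρ ∈ R) {θ : ℕ → Tm ar ℕ} (hθ : Holds R ρ θ)
    {Γ : ℕ → Tok ar} (hf : Forces R Γ θ ρ.l) {μ : ℕ → Tm ar (Tok ar)}
    (hμ : ∀ x, Has R (μ x) (Γ x)) : ∀ p, PSub p ρ.l → Has R (p.sub μ) (pat Γ p)
  | .var x, _ => hμ x
  | .node f p, hp =>
    .con f _ _ ⟨ρ, hρ, p, Γ, θ, hp, fun _ => rfl, hθ, fun x hx => hf x (hp.occ hx)⟩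
      fun i => has_pat hρ hθ hf hμ (p i) (hp.down i)

end Pool.Agent.MP_18c441_lc

end

section

/-!
Invariance of the typing under conversion, and confluence.
-/

namespace Pool.Agent.MP_18c441_lc

open Relation

variable {F : Type} {ar : F → ℕ}

/-- Feasible root overlaps agree up to variants. -/
def Root (R : Set (Rule ar)) : Prop :=
  ∀ ρ₁ ∈ R, ∀ ρ₂ ∈ R,
    (∃ τ₁ τ₂ : ℕ → Tm ar ℕ, ρ₁.l.sub τ₁ = ρ₂.l.sub τ₂ ∧ Holds R ρ₁ τ₁ ∧ Holds R ρ₂ τ₂) →
    ∀ σ₁ σ₂ : ℕ → Tm ar ℕ, ρ₁.l.sub σ₁ = ρ₂.l.sub σ₂ →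
      ∃ r₁ r₂, Variant ρ₁ r₁ ∧ Variant ρ₂ r₂ ∧ r₁.sub σ₁ = r₂.sub σ₂

variable {R : Set (Rule ar)}

theorem root_transfer (hw : ∀ ρ ∈ R, ρ.WF) {ρ₁ ρ₂ : Rule ar} (hρ₁ : ρ₁ ∈ R) (hρ₂ : ρ₂ ∈ R)
    (h : ∀ σ₁ σ₂ : ℕ → Tm ar ℕ, ρ₁.l.sub σ₁ = ρ₂.l.sub σ₂ →
      ∃ r₁ r₂, Variant ρ₁ r₁ ∧ Variant ρ₂ r₂ ∧ r₁.sub σ₁ = r₂.sub σ₂)
    {μ₁ μ₂ : ℕ → Tm ar (Tok ar)} (hμ : ρ₁.l.sub μ₁ = ρ₂.l.sub μ₂) :
    ∃ r₁ r₂, Variant ρ₁ r₁ ∧ Variant ρ₂ r₂ ∧ r₁.sub μ₁ = r₂.sub μ₂ := by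
  have : Nonempty (Tok ar) := ⟨.jn (.var 0)⟩
  obtain ⟨e, he⟩ := Set.countable_iff_exists_injOn.1 (occ_finite (ρ₁.l.sub μ₁)).countable
  let A : Set (Tok ar) := {x | (ρ₁.l.sub μ₁).Occ x}
  let d : ℕ → Tok ar := Function.invFunOn e A
  have hd : ∀ a ∈ A, d (e a) = a := fun a ha => he.leftInvOn_invFunOn ha
  have back : ∀ t : Tm ar (Tok ar), (∀ a, t.Occ a → a ∈ A) →
      (t.sub fun a => (.var (e a) : Tm ar ℕ)).sub (fun k => (.var (d k) : Tm ar (Tok ar))) = t := by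
    intro t ht
    rw [sub_sub]
    conv_rhs => rw [← sub_var t]
    exact sub_congr t fun a ha => by simp only [Tm.sub, hd a (ht a ha)]
  obtain ⟨r₁, r₂, h1, h2, h3⟩ := h (fun x => (μ₁ x).sub fun a => .var (e a))
    (fun x => (μ₂ x).sub fun a => .var (e a)) (by rw [← sub_sub, ← sub_sub, hμ])
  refine ⟨r₁, r₂, h1, h2, ?_⟩
  have h4 := congrArg (Tm.sub fun k => (.var (d k) : Tm ar (Tok ar))) h3
  rw [sub_sub, sub_sub] at h4
  rw [← sub_congr r₁ fun x hx => back (μ₁ x) fun a ha =>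
      occ_sub μ₁ a _ x (variant_occ (hw _ hρ₁) h1 x hx) ha,
    ← sub_congr r₂ fun x hx => back (μ₂ x) fun a ha =>
      (show (ρ₁.l.sub μ₁).Occ a from hμ ▸ occ_sub μ₂ a _ x (variant_occ (hw _ hρ₂) h2 x hx) ha)]
  exact h4

/-- A term with the join types of its variables. -/
def emb (t : Tm ar ℕ) : Tm ar (Tok ar) := t.sub fun x => .var (.jn (.var x))

theorem emb_sub (σ : ℕ → Tm ar ℕ) (t : Tm ar ℕ) :
    emb (t.sub σ) = t.sub fun x => emb (σ x) := sub_sub _ _ t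

theorem ret_emb (t : Tm ar ℕ) : ReT R (emb t) t := by
  have := ret_sub (R := R) (μ := fun x => .var (.jn (.var x))) (σ := Tm.var) t
    fun x _ => ⟨.var x, .refl, .refl⟩
  rwa [sub_var] at this

theorem has_emb (t : Tm ar ℕ) : Has R (emb t) (.jn t) := by
  have := has_jn_sub (R := R) (μ := fun x => .var (.jn (.var x))) (θ := Tm.var) t
    fun x _ => .var (.refl _)
  rwa [sub_var] at this

theorem lhs_node {ρ : Rule ar} (hw : ρ.WF) : ∃ f l, ρ.l = .node f l := by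
  cases h : ρ.l with
  | var x => exact (hw.1 x h).elim
  | node f l => exact ⟨f, l, rfl⟩

theorem expand (hw : ∀ ρ ∈ R, ρ.WF) {ρ : Rule ar} (hρ : ρ ∈ R) {σ : ℕ → Tm ar ℕ}
    (hσ : Holds R ρ σ) {α : Tok ar} (h : ∀ r', Variant ρ r' → Has R (emb (r'.sub σ)) α) :
    Has R (emb (ρ.l.sub σ)) α := by
  obtain ⟨f, l, hl⟩ := lhs_node (hw ρ hρ)
  choose Γ h1 h2 using fun r' : {r' // Variant ρ r'} =>
    has_rev (h r'.1 r'.2) r'.1 (emb_sub σ r'.1)
  let Δ : Option {r' // Variant ρ r'} → ℕ → Tok ar := fun o x =>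
    match o with
    | none => .jn (σ x)
    | some r' => Γ r' x
  have hΔ : ∀ x, Has R (emb (σ x)) (.all _ fun o => Δ o x) := fun x => .all _ _ fun o =>
    match o with
    | none => has_emb _
    | some r' => h2 r' x
  have hf : Forces R (fun x => .all _ fun o => Δ o x) σ ρ.l := fun x _ t ht =>
    Jn.cv (ht none)
  rw [emb_sub, hl]
  refine .rule f _ ρ l _ σ hρ hl (fun i => has_pat hρ hσ hf hΔ (l i) (hl ▸ .arg f l i)) hσ hf
    fun r' hr => env_meet Δ (some ⟨r', hr⟩) r' (h1 ⟨r', hr⟩)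

theorem contract (hw : ∀ ρ ∈ R, ρ.WF) (hi : Inner R) (hr : Root R) {ρ : Rule ar} (hρ : ρ ∈ R)
    {σ : ℕ → Tm ar ℕ} (hσ : Holds R ρ σ)
    (hv : ∀ r', Variant ρ r' → ∀ α, Has R (emb (r'.sub σ)) α → Has R (emb (ρ.r.sub σ)) α)
    {α : Tok ar} (h : Has R (emb (ρ.l.sub σ)) α) : Has R (emb (ρ.r.sub σ)) α := by
  obtain ⟨f, l, hl⟩ := lhs_node (hw ρ hρ)
  have hsub : ∀ i, PSub (l i) ρ.l := fun i => hl ▸ .arg f l i
  have hlin : (Tm.node f l).Linear := hl ▸ (hw ρ hρ).2.1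
  have hμ : ∀ x, ReT R (emb (σ x)) (σ x) := fun x => ret_emb _
  rw [emb_sub, hl] at h
  have h' : Has R (.node f fun i => (l i).sub fun x => emb (σ x)) α := h
  clear h
  generalize hs : (Tm.node f fun i => (l i).sub fun x => emb (σ x)) = s at h'
  induction h' with
  | var => cases hs
  | all ι g _ ih => exact .all ι g fun k => ih k hs
  | con g a τ h1 h2 _ =>
    cases hs
    obtain ⟨ρ', hρ', p, Γ, θ, hp, h3, hθ, hf⟩ := h1
    obtain ⟨σ', τ', h4, h5, h6⟩ := feas hw hi hρ hσ hsub hlin (hp.linear (hw ρ' hρ').2.1)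
      (fun x _ => hμ x) hf fun i => h3 i ▸ h2 i
    exact (hi ρ' hρ' ρ hρ _ hp (fun x hx => by cases hx) τ' σ' (hl ▸ h4.symm)
      (hθ.congr (hw ρ' hρ') fun x _ => h6 x) (hσ.congr (hw ρ hρ) fun x _ => h5 x)).elim
  | jn g a b h1 h2 _ =>
    cases hs
    obtain ⟨θ, h3, h4⟩ := jn_args hlin fun i => jn_pat hw hi hρ hσ hμ (l i) (hsub i) _ (h2 i)
    rw [← hl] at h3 h4
    have hθ : Holds R ρ θ := hσ.congr (hw ρ hρ) fun x hx =>
      Jn.cv (adequacy hw (h4 x hx) _ (hμ x))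
    rw [emb_sub]
    exact has_le (.jj ((h1.trans h3).tail (red_root hρ hθ))) _
      (has_jn_sub _ fun x hx => h4 x ((hw ρ hρ).2.2.1 x hx))
  | rule g a ρ₂ q Γ θ hρ₂ hq h1 hθ hf h2 _ _ =>
    cases hs
    have hqlin : (Tm.node f q).Linear := hq ▸ (hw ρ₂ hρ₂).2.1
    obtain ⟨σ', τ', h4, h5, h6⟩ := feas hw hi hρ hσ hsub hlin hqlin (fun x _ => hμ x)
      (hq ▸ hf) h1
    obtain ⟨μ₁, μ₂, h7, h8, h9⟩ := unif_args hlin hqlin fun i =>
      unif hw hi hρ hρ₂ hσ hθ hμ hf (q i) (l i) (hq ▸ .arg f q i) (hsub i) (h1 i)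
    rw [← hl, ← hq] at h4 h7
    rw [← hq] at h8
    rw [← hl] at h9
    obtain ⟨r₁, r₂, hr₁, hr₂, h10⟩ := root_transfer hw hρ hρ₂ (hr ρ hρ ρ₂ hρ₂ ⟨σ', τ', h4,
      hσ.congr (hw ρ hρ) fun x _ => h5 x, hθ.congr (hw ρ₂ hρ₂) fun x _ => h6 x⟩) h7
    have h11 := has_env r₂ (fun y hy => h8 y (variant_occ (hw _ hρ₂) hr₂ y hy)) (h2 r₂ hr₂)
    rw [← h10] at h11
    refine hv r₁ hr₁ _ ?_
    rw [emb_sub]
    exact has_mono r₁ (fun x hx => h9 x (variant_occ (hw _ hρ) hr₁ x hx)) _ h11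

theorem eqv_types {Q : Tm ar ℕ → Tm ar ℕ → Prop}
    (hQ : ∀ s t, Q s t → ∀ α, Has R (emb s) α ↔ Has R (emb t) α) {s t : Tm ar ℕ}
    (h : EqvGen Q s t) (α : Tok ar) : Has R (emb s) α ↔ Has R (emb t) α := by
  induction h with
  | rel _ _ h1 => exact hQ _ _ h1 α
  | refl => rfl
  | symm _ _ _ ih => exact ih.symm
  | trans _ _ _ _ _ ih1 ih2 => exact ih1.trans ih2

theorem invariance (hw : ∀ ρ ∈ R, ρ.WF) (hi : Inner R) (hr : Root R) :
    ∀ n s t, Step R n s t → ∀ α, Has R (emb s) α ↔ Has R (emb t) α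
  | 0, _, _, h => h.elim
  | n + 1, s, t, h => by
    have ih := invariance hw hi hr n
    have h' : Ctx _ s t := h
    clear h
    induction h' with
    | root h1 =>
      obtain ⟨ρ, hρ, σ, rfl, rfl, h2⟩ := h1
      have hv := fun r' (hr' : Variant ρ r') => eqv_types ih (variant_level h2 hr')
      exact fun α => ⟨contract hw hi hr hρ (holds_of_level h2) fun r' hr' β => (hv r' hr' β).2,
        fun h => expand hw hρ (holds_of_level h2) fun r' hr' => (hv r' hr' α).1 h⟩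
    | @arg f a i t _ ih' =>
      have key : ∀ j γ, Has R (emb (a j)) γ ↔ Has R (emb (Function.update a i t j)) γ := by
        intro j γ
        by_cases hj : j = i
        · subst hj
          rw [Function.update_self]
          exact ih' γ
        · rw [Function.update_of_ne hj]
      exact fun α => ⟨has_node fun j γ => (key j γ).1, has_node fun j γ => (key j γ).2⟩

theorem church_rosser (hw : ∀ ρ ∈ R, ρ.WF) (hi : Inner R) (hr : Root R) {s t : Tm ar ℕ}
    (h : Cv R s t) : Jn R s t :=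
  adequacy hw ((eqv_types (fun s t ⟨n, hn⟩ => invariance hw hi hr n s t hn) h _).2 (has_emb t))
    _ (ret_emb s)

theorem confluent (hw : ∀ ρ ∈ R, ρ.WF) (hi : Inner R) (hr : Root R) {t t₁ t₂ : Tm ar ℕ}
    (h₁ : RT R t t₁) (h₂ : RT R t t₂) : ∃ u, RT R t₁ u ∧ RT R t₂ u :=
  church_rosser hw hi hr (.trans _ _ _ (.symm _ _ (cv_of_rt h₁)) (cv_of_rt h₂))

end Pool.Agent.MP_18c441_lc

end
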